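import Pool.Graph.R_seed8.H680R3.EX.Final

set_option autoImplicit false

open MeasureTheory Polynomial Set

namespace Pool.Agent.KS6_55.AX

open Pool.Agent.H680R3.EX Pool.Agent.H672R3.EX680
open Pool.Agent.Helper404 (toP)

theorem key : Key := key_of Pool.Agent.H116R3.Ex680A.taskA
    (Pool.Agent.H285R3.Ex680E.taskE_of Pool.Agent.H116R3.Ex680B.taskB)
    Pool.Agent.H99R3.EX.taskF Pool.Agent.H285R3.Ex680G.taskG Pool.Agent.H99R3.EX.taskH
    Pool.Agent.H672R3.EX680.taskI Pool.Agent.H672R3.EX680.taskJ taskK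

/-- The numbers with infinitely many approximations with the constant `c₂` outside of `Bad`. -/
def Xi (n : ℕ) (s c₁ c₂ : ℝ) (N : ℕ) (a b : ℝ) : Set ℝ :=
  (Icc a b \ Bad n s c₁ N) ∩ ⋂ k : ℕ, {ξ | ∃ (α : ℝ) (u : Fin (n + 1) → ℤ), Good n α u ∧
    max N k ≤ ht u ∧ |ξ - α| < c₂ * (ht u : ℝ) ^ (-s)}

lemma Xi_meas (n : ℕ) (s c₁ c₂ : ℝ) (N : ℕ) (a b : ℝ) : MeasurableSet (Xi n s c₁ c₂ N a b) := by
  refine (measurableSet_Icc.diff (isOpen_Bad n s c₁ N).measurableSet).inter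
    (MeasurableSet.iInter fun k => IsOpen.measurableSet ?_)
  have e : {ξ : ℝ | ∃ (α : ℝ) (u : Fin (n + 1) → ℤ), Good n α u ∧
      max N k ≤ ht u ∧ |ξ - α| < c₂ * (ht u : ℝ) ^ (-s)} =
      ⋃ (α : ℝ), ⋃ (u : Fin (n+1) → ℤ), ⋃ (_ : Good n α u ∧ max N k ≤ ht u),
      {ξ : ℝ | |ξ - α| < c₂ * (ht u : ℝ) ^ (-s)} := by
    ext ξ
    simp only [mem_setOf_eq, mem_iUnion, exists_prop, and_assoc]
  rw [e]
  refine isOpen_iUnion fun α => isOpen_iUnion fun u => isOpen_iUnion fun _ => ?_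
  exact isOpen_lt (by fun_prop) continuous_const

/-- Shrinking an interval so that it avoids a point. -/
lemma avoid (a b y : ℝ) (B : Set ℝ) (h : volume (Ioo a b \ B) ≠ 0) :
    ∃ a' b', a ≤ a' ∧ b' ≤ b ∧ volume (Ioo a' b' \ B) ≠ 0 ∧ y ∉ Icc a' b' := by
  by_contra hcon
  push Not at hcon
  apply h
  have h1 : Ioo a b \ B ⊆ {y} ∪ ((⋃ m : ℕ, Ioo a (min b (y - 1 / ((m : ℝ) + 1))) \ B) ∪
      ⋃ m : ℕ, Ioo (max a (y + 1 / ((m : ℝ) + 1))) b \ B) := by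
    rintro ξ ⟨⟨x1, x2⟩, x3⟩
    rcases lt_trichotomy ξ y with hy | hy | hy
    · obtain ⟨m, hm⟩ := exists_nat_one_div_lt (sub_pos.2 hy)
      exact Or.inr (Or.inl (mem_iUnion.2 ⟨m, ⟨x1, lt_min x2 (by linarith)⟩, x3⟩))
    · exact Or.inl hy
    · obtain ⟨m, hm⟩ := exists_nat_one_div_lt (sub_pos.2 hy)
      exact Or.inr (Or.inr (mem_iUnion.2 ⟨m, ⟨max_lt x1 (by linarith), x2⟩, x3⟩))
  refine measure_mono_null h1 (measure_union_null (by simp) (measure_union_null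
    (measure_iUnion_null fun m => ?_) (measure_iUnion_null fun m => ?_)))
  · by_contra h2
    have h3 := hcon a (min b (y - 1 / ((m : ℝ) + 1))) le_rfl (min_le_left _ _) h2
    have h4 := h3.2.trans (min_le_right _ _)
    have : (0:ℝ) < 1 / ((m:ℝ)+1) := by positivity
    linarith
  · by_contra h2
    have h3 := hcon (max a (y + 1 / ((m : ℝ) + 1))) b (le_max_left _ _) le_rfl h2
    have h4 := (le_max_right _ _).trans h3.1
    have : (0:ℝ) < 1 / ((m:ℝ)+1) := by positivity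
    linarith

lemma Xi_unc {n : ℕ} (hn : 2 ≤ n) {s c₁ c₂ : ℝ} (hs : (n : ℝ) + 1 < s) (h1 : 0 < c₁)
    (h12 : c₁ < c₂) {N : ℕ} (hN : 1 ≤ N) {a b : ℝ} (ha : 0 ≤ a) (hb : b ≤ 1)
    (h0 : volume (Ioo a b \ Bad n s c₁ N) ≠ 0) : ¬ (Xi n s c₁ c₂ N a b).Countable := by
  intro hc
  obtain ⟨x, hx⟩ : ∃ x : ℕ → ℝ, Xi n s c₁ c₂ N a b ⊆ range x := by
    rcases (Xi n s c₁ c₂ N a b).eq_empty_or_nonempty with h | h
    · exact ⟨fun _ => 0, h ▸ empty_subset _⟩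
    · obtain ⟨x, hx⟩ := hc.exists_eq_range h
      exact ⟨x, hx.le⟩
  let St := {p : ℝ × ℝ // 0 ≤ p.1 ∧ p.2 ≤ 1 ∧ volume (Ioo p.1 p.2 \ Bad n s c₁ N) ≠ 0}
  have hstep : ∀ (p : St) (M : ℕ) (y : ℝ), ∃ (q : St) (α : ℝ) (u : Fin (n+1) → ℤ),
      Icc q.1.1 q.1.2 ⊆ Icc p.1.1 p.1.2 ∧ Good n α u ∧ M ≤ ht u ∧
      (∀ ξ ∈ Icc q.1.1 q.1.2, |ξ - α| < c₂ * (ht u : ℝ) ^ (-s)) ∧ y ∉ Icc q.1.1 q.1.2 := by
    intro p M y
    obtain ⟨a₁, b₁, e1, e2, e3, e4⟩ := avoid _ _ y _ p.2.2.2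
    obtain ⟨a', b', α, u, g1, g2, g3, g4, g5, g6⟩ :=
      step key n hn s c₁ c₂ hs h1 h12 N hN a₁ b₁ (p.2.1.trans e1) (e2.trans p.2.2.1) e3 M
    exact ⟨⟨(a', b'), (p.2.1.trans e1).trans g1, g2.trans (e2.trans p.2.2.1), g3⟩, α, u,
      (Icc_subset_Icc g1 g2).trans (Icc_subset_Icc e1 e2), g4, g5, g6,
      fun h => e4 (Icc_subset_Icc g1 g2 h)⟩
  choose nxt al uu g1 g2 g3 g4 g5 using hstep
  let sq : ℕ → St := fun k => Nat.rec ⟨(a, b), ha, hb, h0⟩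
    (fun k st => nxt st (max N k) (x k)) k
  have hsq : ∀ k, sq (k+1) = nxt (sq k) (max N k) (x k) := fun k => rfl
  obtain ⟨ξ, hξ⟩ : (⋂ k, (Icc (sq k).1.1 (sq k).1.2 \ Bad n s c₁ N)).Nonempty := by
    apply IsCompact.nonempty_iInter_of_sequence_nonempty_isCompact_isClosed
    · intro k
      apply diff_subset_diff_left
      rw [hsq]
      exact g1 _ _ _
    · intro k
      by_contra hemp
      rw [not_nonempty_iff_eq_empty] at hemp
      apply (sq k).2.2.2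
      refine measure_mono_null (diff_subset_diff_left Ioo_subset_Icc_self) ?_
      rw [hemp]
      exact measure_empty
    · exact isCompact_Icc.diff (isOpen_Bad n s c₁ N)
    · intro k
      exact isClosed_Icc.sdiff (isOpen_Bad n s c₁ N)
  rw [mem_iInter] at hξ
  have hmem : ξ ∈ Xi n s c₁ c₂ N a b := by
    refine ⟨hξ 0, mem_iInter.2 fun k => ⟨al (sq k) (max N k) (x k), uu (sq k) (max N k) (x k),
      g2 _ _ _, g3 _ _ _, g4 _ _ _ ξ (by rw [← hsq]; exact (hξ (k+1)).1)⟩⟩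
  obtain ⟨k, hk⟩ := hx hmem
  have h6 := g5 (sq k) (max N k) (x k)
  rw [← hsq, hk] at h6
  exact h6 (hξ (k+1)).1

/-- An uncountable Borel set of real numbers has the cardinality of the continuum. -/
lemma card_of {S : Set ℝ} (h1 : MeasurableSet S) (h2 : ¬ S.Countable) :
    Cardinal.mk S = Cardinal.continuum := by
  refine le_antisymm ((Cardinal.mk_set_le S).trans Cardinal.mk_real.le) ?_
  obtain ⟨t', _, h3, h4, -⟩ := h1.isClopenable
  obtain ⟨f, f1, -, f2⟩ := @IsClosed.exists_nat_bool_injection_of_not_countable ℝ t' h3 S h4 h2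
  have h5 := Cardinal.mk_le_of_injective (f := fun x : ℕ → Bool => (⟨f x, f1 ⟨x, rfl⟩⟩ : S))
    (fun x y h => f2 (congrArg Subtype.val h))
  refine le_trans (le_of_eq ?_) h5
  simp

lemma Xi_mem {n : ℕ} {s c₁ c₂ : ℝ} (hs : (n : ℝ) + 1 < s) (h1 : 0 < c₁)
    (h12 : c₁ < c₂) {N : ℕ} {a b ξ : ℝ} (hξ : ξ ∈ Xi n s c₁ c₂ N a b) :
    {α : ℝ | ∃ u : Fin (n + 1) → ℤ, Good n α u ∧ |ξ - α| < c₂ * (ht u : ℝ) ^ (-s)}.Infinite ∧
    {α : ℝ | ∃ u : Fin (n + 1) → ℤ, Good n α u ∧ |ξ - α| < c₁ * (ht u : ℝ) ^ (-s)}.Finite := by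
  obtain ⟨⟨-, hnb⟩, hξ2⟩ := hξ
  rw [mem_iInter] at hξ2
  constructor
  · intro hfin
    have hfin2 : ({α : ℝ | ∃ u : Fin (n + 1) → ℤ, Good n α u ∧
        |ξ - α| < c₂ * (ht u : ℝ) ^ (-s)} \ {ξ}).Finite := hfin.subset diff_subset
    have hcl := hfin2.isClosed
    have hmem : ξ ∈ ({α : ℝ | ∃ u : Fin (n + 1) → ℤ, Good n α u ∧
        |ξ - α| < c₂ * (ht u : ℝ) ^ (-s)} \ {ξ})ᶜ := by
      intro h
      exact h.2 rfl
    obtain ⟨δ, hδ, hball⟩ := Metric.isOpen_iff.1 hcl.isOpen_compl ξ hmem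
    have hlim : Filter.Tendsto (fun x : ℝ => c₂ * x ^ (-s)) Filter.atTop (nhds (c₂ * 0)) :=
      (tendsto_rpow_neg_atTop (by linarith [Nat.cast_nonneg (α := ℝ) n])).const_mul _
    rw [mul_zero] at hlim
    have hev := (hlim.comp tendsto_natCast_atTop_atTop).eventually (gt_mem_nhds hδ)
    obtain ⟨k, hk1, hk2⟩ := ((Filter.eventually_ge_atTop 1).and hev).exists
    have hk3 : c₂ * (k:ℝ) ^ (-s) < δ := hk2
    obtain ⟨α, u, hgood, hht, hcl2⟩ := hξ2 k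
    have hk0 : (0:ℝ) < k := by exact_mod_cast hk1
    have hkh : (k:ℝ) ≤ ht u := by exact_mod_cast (le_max_right N k).trans hht
    have h5 : |ξ - α| < δ := by
      refine hcl2.trans_le (le_trans ?_ hk3.le)
      apply mul_le_mul_of_nonneg_left _ (by linarith)
      exact Real.rpow_le_rpow_of_nonpos hk0 hkh (by linarith [Nat.cast_nonneg (α := ℝ) n])
    have h6 : α ∈ ({α : ℝ | ∃ u : Fin (n + 1) → ℤ, Good n α u ∧
        |ξ - α| < c₂ * (ht u : ℝ) ^ (-s)} \ {ξ})ᶜ := by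
      apply hball
      rw [Metric.mem_ball, Real.dist_eq, abs_sub_comm]
      exact h5
    have h7 : α = ξ := by
      by_contra hne
      exact h6 ⟨⟨u, hgood, hcl2⟩, hne⟩
    apply hnb
    refine ⟨α, u, hgood, (le_max_left N k).trans hht, ?_⟩
    rw [h7, sub_self, abs_zero]
    have : (0:ℝ) < ht u := hk0.trans_le hkh
    positivity
  · refine ((good_card n N).1.image Prod.fst).subset ?_
    rintro α ⟨u, hg, hu⟩
    refine ⟨(α, u), ⟨hg, ?_, toP_ne_zero hg⟩, rfl⟩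
    by_contra hcon
    exact hnb ⟨α, u, hg, by simp only at hcon; omega, hu⟩

/-- In every subinterval of `[0, 1]` there are continuum many solutions. -/
theorem main {n : ℕ} (hn : 2 ≤ n) {s c₁ c₂ : ℝ} (hs : (n : ℝ) + 1 < s) (h1 : 0 < c₁)
    (h12 : c₁ < c₂) {a b : ℝ} (ha : 0 ≤ a) (hab : a < b) (hb : b ≤ 1) :
    Cardinal.mk {ξ : ℝ | ξ ∈ Ioo a b ∧
      {α : ℝ | ∃ u : Fin (n + 1) → ℤ, Good n α u ∧ |ξ - α| < c₂ * (ht u : ℝ) ^ (-s)}.Infinite ∧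
      {α : ℝ | ∃ u : Fin (n + 1) → ℤ, Good n α u ∧ |ξ - α| < c₁ * (ht u : ℝ) ^ (-s)}.Finite} =
      Cardinal.continuum := by
  set a' := a + (b - a) / 3 with ha'
  set b' := b - (b - a) / 3 with hb'
  have hab' : 0 < (b' - a') / 2 := by rw [ha', hb']; linarith
  obtain ⟨N, hN1, hN⟩ := taskJ n (by omega) s c₁ hs h1 ((b' - a') / 2) hab'
  have h0 : volume (Ioo a' b' \ Bad n s c₁ N) ≠ 0 := by
    intro h0
    have hsub : Ioo a' b' ⊆ (Ioo a' b' \ Bad n s c₁ N) ∪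
        {ξ ∈ Icc (-1 : ℝ) 2 | ∃ (α : ℝ) (u : Fin (n + 1) → ℤ), Good n α u ∧
          N ≤ ht u ∧ |ξ - α| < c₁ * (ht u : ℝ) ^ (-s)} := by
      intro ξ hξ
      by_cases hB : ξ ∈ Bad n s c₁ N
      · right
        exact ⟨⟨by linarith [hξ.1], by linarith [hξ.2]⟩, hB⟩
      · left
        exact ⟨hξ, hB⟩
    have h3 := (measure_mono (μ := volume) hsub).trans (measure_union_le _ _)
    rw [h0, zero_add, Real.volume_Ioo] at h3
    have h4 := h3.trans hN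
    rw [ENNReal.ofReal_le_ofReal_iff hab'.le] at h4
    linarith
  have h2 := card_of (Xi_meas n s c₁ c₂ N a' b')
    (Xi_unc hn hs h1 h12 hN1 (by linarith) (by linarith) h0)
  refine le_antisymm ((Cardinal.mk_set_le _).trans Cardinal.mk_real.le) ?_
  rw [← h2]
  refine Cardinal.mk_le_mk_of_subset fun ξ hξ => ⟨?_, Xi_mem hs h1 h12 hξ⟩
  have h3 := hξ.1.1
  exact ⟨by linarith [h3.1], by linarith [h3.2]⟩

end Pool.Agent.KS6_55.AX
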